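import Pool.Agent.H33.NI.Nit

/-!
# Few residues
-/

set_option autoImplicit false

open Set Filter Topology

noncomputable section

namespace Pool.Agent.H33.NI

/-- congruences between the subsums -/
theorem cong {u v w : ℕ} (hu : 2 ≤ u) (hv : 1 ≤ v) (huw : Nat.Coprime u w) {a a' b b' : ℕ}
    (ha : a < u) (ha' : a' < u) :
    (a + u * u * v * b) % (u * v * w) = (a' + u * u * v * b') % (u * v * w) ↔
      a = a' ∧ b % w = b' % w := by
  constructor
  · intro h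
    have h0 : a + u * u * v * b ≡ a' + u * u * v * b' [MOD u * v * w] := h
    have h1 : a + u * u * v * b ≡ a' + u * u * v * b' [MOD u] :=
      h0.of_dvd ⟨v * w, by ring⟩
    have e : ∀ x y : ℕ, x + u * u * v * y ≡ x [MOD u] := fun x y => by
      have : x + u * u * v * y = x + u * (u * v * y) := by ring
      rw [this]
      exact Nat.add_mul_mod_self_left x u (u * v * y)
    have h2 : a ≡ a' [MOD u] := (e a b).symm.trans (h1.trans (e a' b'))
    have h3 : a = a' := by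
      have := h2
      rwa [Nat.ModEq, Nat.mod_eq_of_lt ha, Nat.mod_eq_of_lt ha'] at this
    subst h3
    refine ⟨rfl, ?_⟩
    have h4 : u * u * v * b ≡ u * u * v * b' [MOD u * v * w] := Nat.ModEq.add_left_cancel' a h0
    have h5 : u * v * (u * b) ≡ u * v * (u * b') [MOD u * v * w] := by
      have e1 : u * v * (u * b) = u * u * v * b := by ring
      have e2 : u * v * (u * b') = u * u * v * b' := by ring
      rw [e1, e2]
      exact h4
    have h6 : u * b ≡ u * b' [MOD w] :=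
      Nat.ModEq.mul_left_cancel' (by positivity) h5
    exact Nat.ModEq.cancel_left_of_coprime (by rw [Nat.gcd_comm]; exact huw) h6
  · rintro ⟨rfl, h⟩
    have h1 : u * b ≡ u * b' [MOD w] := Nat.ModEq.mul_left u h
    have h2 : u * v * (u * b) ≡ u * v * (u * b') [MOD u * v * w] := Nat.ModEq.mul_left' _ h1
    have e1 : u * v * (u * b) = u * u * v * b := by ring
    have e2 : u * v * (u * b') = u * u * v * b' := by ring
    rw [e1, e2] at h2
    exact Nat.ModEq.add_left a h2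

/-- the sum of the terms selected by digit sequences -/
theorem hasSum_sel {n : ℕ} (hn : 2 ≤ n) (p q d : ℕ) (a b : ℕ → ℕ) (ha : ∀ j, a j ≤ p)
    (hb : ∀ j, b j ≤ q) :
    HasSum (Set.indicator {x : ℕ × Fin (p + q) | x.2 ∈ sel p q (a x.1) (b x.1)}
      (fun x => (kk p q d x.2 : ℝ) / (n : ℝ) ^ (x.1 + 1)))
      (∑' j, ((a j + d * b j : ℕ) : ℝ) / (n : ℝ) ^ (j + 1)) := by
  have hs : Summable fun x : ℕ × Fin (p + q) => (kk p q d x.2 : ℝ) / (n : ℝ) ^ (x.1 + 1) := by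
    have h1 : Summable fun x : ℕ × Fin (p + q) =>
        (1 / (n : ℝ) ^ (x.1 + 1)) * (kk p q d x.2 : ℝ) :=
      Summable.mul_of_nonneg (summable_pow hn 1) (f := fun j : ℕ => 1 / (n : ℝ) ^ (j + 1))
        (g := fun i : Fin (p + q) => (kk p q d i : ℝ)) (Summable.of_finite)
        (fun j => by positivity) (fun i => Nat.cast_nonneg _)
    refine h1.congr fun x => ?_
    rw [div_mul_eq_mul_div, one_mul]
  have hs' := hs.indicator {x : ℕ × Fin (p + q) | x.2 ∈ sel p q (a x.1) (b x.1)}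
  rw [hs'.hasSum_iff, hs'.tsum_prod]
  refine tsum_congr fun j => ?_
  symm
  rw [tsum_fintype, ← sum_sel p q d (a j) (b j) (ha j) (hb j), Nat.cast_sum, Finset.sum_div,
    ← Finset.sum_filter_add_sum_filter_not Finset.univ (fun i => i ∈ sel p q (a j) (b j))
      (fun i => indicator {x : ℕ × Fin (p + q) | x.2 ∈ sel p q (a x.1) (b x.1)}
      (fun x => (kk p q d x.2 : ℝ) / (n : ℝ) ^ (x.1 + 1)) (j, i))]
  have h1 : ∑ i ∈ Finset.univ.filter (fun i => ¬ i ∈ sel p q (a j) (b j)),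
      indicator {x : ℕ × Fin (p + q) | x.2 ∈ sel p q (a x.1) (b x.1)}
      (fun x => (kk p q d x.2 : ℝ) / (n : ℝ) ^ (x.1 + 1)) (j, i) = 0 := by
    refine Finset.sum_eq_zero fun i hi => ?_
    have h' : (j, i) ∉ {x : ℕ × Fin (p + q) | x.2 ∈ sel p q (a x.1) (b x.1)} :=
      (Finset.mem_filter.1 hi).2
    exact Set.indicator_of_notMem h' _
  rw [h1, add_zero]
  have h2 : Finset.univ.filter (fun i => i ∈ sel p q (a j) (b j)) = sel p q (a j) (b j) := by
    ext i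
    simp
  rw [h2]
  refine Finset.sum_congr rfl fun i hi => ?_
  exact (Set.indicator_of_mem (f := fun x : ℕ × Fin (p + q) =>
    (kk p q d x.2 : ℝ) / (n : ℝ) ^ (x.1 + 1)) (show (j, i) ∈
      {x : ℕ × Fin (p + q) | x.2 ∈ sel p q (a x.1) (b x.1)} from hi)).symm

/-- the digits -/
def dig (u v w : ℕ) (x : Fin u × Fin v × Fin w) : ℕ :=
  (x.1 : ℕ) + u * (x.2.1 : ℕ) + u * u * v * (x.2.2 : ℕ)

theorem dig_complete {u v w : ℕ} (hu : 2 ≤ u) (hv : 1 ≤ v) (hw : 2 ≤ w)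
    (huw : Nat.Coprime u w) (z : ℤ) :
    ∃ x, ((u * v * w : ℕ) : ℤ) ∣ z - dig u v w x := by
  have hu0 : (0 : ℤ) < u := by omega
  have hv0 : (0 : ℤ) < v := by omega
  have hw0 : (0 : ℤ) < w := by omega
  obtain ⟨z₁, hz₁⟩ : ∃ z₁, z₁ = z / u := ⟨_, rfl⟩
  obtain ⟨z₂, hz₂⟩ : ∃ z₂, z₂ = z₁ / v := ⟨_, rfl⟩
  obtain ⟨s, t, hst⟩ : ∃ s t : ℤ, (u : ℤ) * s + w * t = 1 := by
    refine ⟨Nat.gcdA u w, Nat.gcdB u w, ?_⟩
    have := Nat.gcd_eq_gcd_ab u w
    rw [huw] at this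
    exact_mod_cast this.symm
  have a1 := Int.emod_nonneg z hu0.ne'
  have a2 := Int.emod_lt_of_pos z hu0
  have b1 := Int.emod_nonneg z₁ hv0.ne'
  have b2 := Int.emod_lt_of_pos z₁ hv0
  have c1 := Int.emod_nonneg (z₂ * s) hw0.ne'
  have c2 := Int.emod_lt_of_pos (z₂ * s) hw0
  refine ⟨(⟨(z % u).toNat, by omega⟩, ⟨(z₁ % v).toNat, by omega⟩,
    ⟨(z₂ * s % w).toNat, by omega⟩), ?_⟩
  have e1 : ((z % u).toNat : ℤ) = z % u := Int.toNat_of_nonneg a1
  have e2 : ((z₁ % v).toNat : ℤ) = z₁ % v := Int.toNat_of_nonneg b1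
  have e3 : ((z₂ * s % w).toNat : ℤ) = z₂ * s % w := Int.toNat_of_nonneg c1
  have f1 : z = u * z₁ + z % u := by rw [hz₁]; exact (Int.mul_ediv_add_emod z u).symm
  have f2 : z₁ = v * z₂ + z₁ % v := by rw [hz₂]; exact (Int.mul_ediv_add_emod z₁ v).symm
  have f3 : z₂ * s = w * (z₂ * s / w) + z₂ * s % w := (Int.mul_ediv_add_emod _ _).symm
  refine ⟨z₂ * t + u * (z₂ * s / w), ?_⟩
  rw [dig]
  push_cast
  rw [e1, e2, e3]
  have g1 : z - (z % u + u * (z₁ % v) + u * u * v * (z₂ * s % w)) =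
      u * v * (z₂ - u * (z₂ * s % w)) := by
    have h1 : z % u = z - u * z₁ := by linarith
    have h2 : z₁ % v = z₁ - v * z₂ := by linarith
    rw [h1, h2]
    ring
  have g2 : z₂ - u * (z₂ * s % w) = w * (z₂ * t + u * (z₂ * s / w)) := by
    have h1 : z₂ * s % w = z₂ * s - w * (z₂ * s / w) := by linarith
    have h2 : z₂ = z₂ * (u * s + w * t) := by rw [hst, mul_one]
    rw [h1]
    calc z₂ - u * (z₂ * s - w * (z₂ * s / w)) =
        z₂ * (u * s + w * t) - u * (z₂ * s - w * (z₂ * s / w)) := by rw [← h2]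
      _ = _ := by ring
  rw [g1, g2]
  ring

/-- the points with these digits are sums of terms `1 / n ^ j`, `d / n ^ j` -/
theorem point {u v w : ℕ} (hu : 2 ≤ u) (hv : 1 ≤ v) (hw : 2 ≤ w) (b₀ : ℕ) (hb₀ : b₀ < v)
    (ω : ℕ → Fin u × Fin v × Fin w) :
    ∃ A : Set (ℕ × Fin (u - 1 + (v * w - 1))),
      HasSum (A.indicator fun x => (kk (u - 1) (v * w - 1) (u * u * v) x.2 : ℝ) /
        ((u * v * w : ℕ) : ℝ) ^ (x.1 + 1)) (phi (u * v * w) (dig u v w) ω + (u * b₀ : ℕ)) := by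
  have hn : 2 ≤ u * v * w := by
    calc 2 ≤ 2 * 1 * 2 := by norm_num
      _ ≤ u * v * w := Nat.mul_le_mul (Nat.mul_le_mul hu hv) hw
  have hnp : (0 : ℝ) < ((u * v * w : ℕ) : ℝ) := by
    have : 0 < u * v * w := by omega
    exact_mod_cast this
  obtain ⟨β, hβ⟩ : ∃ β : ℕ → ℕ, β = fun j => Nat.casesOn j b₀ fun i => ((ω i).2.1 : ℕ) := ⟨_, rfl⟩
  have hβv : ∀ j, β j < v := by
    intro j
    rw [hβ]
    cases j with
    | zero => exact hb₀
    | succ i => exact (ω i).2.1.2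
  obtain ⟨a, ha⟩ : ∃ a : ℕ → ℕ, a = fun j => ((ω j).1 : ℕ) := ⟨_, rfl⟩
  obtain ⟨c, hc⟩ : ∃ c : ℕ → ℕ, c = fun j => ((ω j).2.2 : ℕ) := ⟨_, rfl⟩
  have hau : ∀ j, a j < u := fun j => by rw [ha]; exact (ω j).1.2
  have hcw : ∀ j, c j < w := fun j => by rw [hc]; exact (ω j).2.2.2
  have hb : ∀ j, c j + w * β j ≤ v * w - 1 := by
    intro j
    have h1 := hβv j
    have h2 := hcw j
    have h3 : w * (β j + 1) ≤ w * v := Nat.mul_le_mul_left w h1
    have h4 : w * (β j + 1) = w * β j + w := by ring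
    have h5 : w * v = v * w := mul_comm _ _
    omega
  have key := hasSum_sel hn (u - 1) (v * w - 1) (u * u * v) a (fun j => c j + w * β j)
    (fun j => by have := hau j; omega) hb
  refine ⟨{x | x.2 ∈ sel (u - 1) (v * w - 1) (a x.1) (c x.1 + w * β x.1)}, ?_⟩
  suffices hphi : phi (u * v * w) (dig u v w) ω + (u * b₀ : ℕ) = ∑' j, ((a j + u * u * v * (c j + w * β j) : ℕ) : ℝ) /
      ((u * v * w : ℕ) : ℝ) ^ (j + 1) by
    rw [hphi]
    exact key
  have s1 : Summable fun j => ((a j + u * u * v * c j : ℕ) : ℝ) /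
      ((u * v * w : ℕ) : ℝ) ^ (j + 1) := by
    refine Summable.of_nonneg_of_le (fun j => by positivity) (fun j => ?_)
      (summable_pow hn ((u + u * u * v * w : ℕ) : ℝ))
    refine div_le_div_of_nonneg_right (Nat.cast_le.2 ?_) (by positivity)
    exact Nat.add_le_add (hau j).le (Nat.mul_le_mul_left _ (hcw j).le)
  have s2 : Summable fun j => ((u * (ω j).2.1 : ℕ) : ℝ) /
      ((u * v * w : ℕ) : ℝ) ^ (j + 1) := by
    refine Summable.of_nonneg_of_le (fun j => by positivity) (fun j => ?_)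
      (summable_pow hn ((u * v : ℕ) : ℝ))
    refine div_le_div_of_nonneg_right (Nat.cast_le.2 ?_) (by positivity)
    exact Nat.mul_le_mul_left _ (ω j).2.1.2.le
  have s3 : Summable fun j => ((u * v * w * (u * β j) : ℕ) : ℝ) /
      ((u * v * w : ℕ) : ℝ) ^ (j + 1) := by
    refine Summable.of_nonneg_of_le (fun j => by positivity) (fun j => ?_)
      (summable_pow hn ((u * v * w * (u * v) : ℕ) : ℝ))
    refine div_le_div_of_nonneg_right (Nat.cast_le.2 ?_) (by positivity)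
    exact Nat.mul_le_mul_left _ (Nat.mul_le_mul_left _ (hβv j).le)
  have e3 : ∑' j, ((u * v * w * (u * β j) : ℕ) : ℝ) / ((u * v * w : ℕ) : ℝ) ^ (j + 1) =
      (u * b₀ : ℕ) + ∑' j, ((u * (ω j).2.1 : ℕ) : ℝ) / ((u * v * w : ℕ) : ℝ) ^ (j + 1) := by
    rw [s3.tsum_eq_zero_add]
    have h0 : β 0 = b₀ := by subst hβ; rfl
    rw [h0, zero_add, pow_one, Nat.cast_mul (u * v * w), mul_div_cancel_left₀ _ hnp.ne']
    congr 1
    refine tsum_congr fun j => ?_
    have h1 : β (j + 1) = ((ω j).2.1 : ℕ) := by subst hβ; rfl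
    rw [h1, pow_succ _ (j + 1), Nat.cast_mul (u * v * w)]
    field_simp
  have e1 : phi (u * v * w) (dig u v w) ω =
      ∑' j, ((a j + u * u * v * c j : ℕ) : ℝ) / ((u * v * w : ℕ) : ℝ) ^ (j + 1) +
      ∑' j, ((u * (ω j).2.1 : ℕ) : ℝ) / ((u * v * w : ℕ) : ℝ) ^ (j + 1) := by
    rw [← s1.tsum_add s2, phi]
    refine tsum_congr fun j => ?_
    rw [← add_div, ← Nat.cast_add, dig, ha, hc]
    congr 2
    dsimp only
    ring
  rw [e1, add_assoc, add_comm _ ((u * b₀ : ℕ) : ℝ), ← e3, ← s1.tsum_add s3]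
  refine tsum_congr fun j => ?_
  rw [← add_div, ← Nat.cast_add]
  congr 2
  ring

end Pool.Agent.H33.NI
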