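import Pool.Agent.H33.NI.Tile

/-!
# The multigeometric series with the terms `1, …, 1, d, …, d`
-/

set_option autoImplicit false

open Set Filter Topology

noncomputable section

namespace Pool.Agent.H33.NI

/-- `1, …, 1, d, …, d` -/
def kk (p q d : ℕ) : Fin (p + q) → ℕ := Fin.append (fun _ => 1) (fun _ => d)

/-- the first `a` of the first `p` indices and the first `b` of the last `q` indices -/
def sel (p q a b : ℕ) : Finset (Fin (p + q)) :=
  Finset.univ.filter fun i => (i : ℕ) < a ∨ (p ≤ (i : ℕ) ∧ (i : ℕ) < p + b)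

theorem sum_ite_lt (p a c : ℕ) (h : a ≤ p) : ∑ i : Fin p, (if (i : ℕ) < a then c else 0) = a * c := by
  rw [Fin.sum_univ_eq_sum_range (fun i => if i < a then c else 0) p, ← Finset.sum_filter]
  have : (Finset.range p).filter (fun i => i < a) = Finset.range a := by
    ext i
    simp only [Finset.mem_filter, Finset.mem_range]
    omega
  rw [this, Finset.sum_const, Finset.card_range, smul_eq_mul]

theorem sum_sel (p q d a b : ℕ) (ha : a ≤ p) (hb : b ≤ q) :
    ∑ i ∈ sel p q a b, kk p q d i = a + d * b := by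
  rw [sel, Finset.sum_filter, Fin.sum_univ_add]
  have h1 : ∀ i : Fin p, (if ((Fin.castAdd q i : Fin (p + q)) : ℕ) < a ∨
      (p ≤ ((Fin.castAdd q i : Fin (p + q)) : ℕ) ∧ ((Fin.castAdd q i : Fin (p + q)) : ℕ) < p + b)
      then kk p q d (Fin.castAdd q i) else 0) = if (i : ℕ) < a then 1 else 0 := by
    intro i
    rw [kk, Fin.append_left, Fin.val_castAdd]
    have := i.2
    by_cases h : (i : ℕ) < a
    · rw [if_pos (Or.inl h), if_pos h]
    · rw [if_neg, if_neg h]
      rintro (h' | ⟨h', -⟩) <;> omega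
  have h2 : ∀ i : Fin q, (if ((Fin.natAdd p i : Fin (p + q)) : ℕ) < a ∨
      (p ≤ ((Fin.natAdd p i : Fin (p + q)) : ℕ) ∧ ((Fin.natAdd p i : Fin (p + q)) : ℕ) < p + b)
      then kk p q d (Fin.natAdd p i) else 0) = if (i : ℕ) < b then d else 0 := by
    intro i
    rw [kk, Fin.append_right, Fin.val_natAdd]
    by_cases h : (i : ℕ) < b
    · rw [if_pos (Or.inr ⟨by omega, by omega⟩), if_pos h]
    · rw [if_neg, if_neg h]
      rintro (h' | ⟨h', h''⟩) <;> omega
  rw [Finset.sum_congr rfl fun i _ => h1 i, Finset.sum_congr rfl fun i _ => h2 i,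
    sum_ite_lt p a 1 ha, sum_ite_lt q b d hb]
  ring

/-- every subsum is of the form `a + d b` -/
theorem sum_any (p q d : ℕ) (S : Finset (Fin (p + q))) :
    ∃ a b, a ≤ p ∧ b ≤ q ∧ ∑ i ∈ S, kk p q d i = a + d * b := by
  have h0 : ∑ i ∈ S, kk p q d i = ∑ i, if i ∈ S then kk p q d i else 0 := by
    rw [← Finset.sum_filter]
    simp
  rw [h0, Fin.sum_univ_add]
  refine ⟨(Finset.univ.filter fun i : Fin p => Fin.castAdd q i ∈ S).card,
    (Finset.univ.filter fun i : Fin q => Fin.natAdd p i ∈ S).card, ?_, ?_, ?_⟩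
  · exact (Finset.card_filter_le _ _).trans (by simp)
  · exact (Finset.card_filter_le _ _).trans (by simp)
  · have h1 : ∀ i : Fin p, (if (Fin.castAdd q i : Fin (p + q)) ∈ S then kk p q d (Fin.castAdd q i)
        else 0) = if (Fin.castAdd q i : Fin (p + q)) ∈ S then 1 else 0 := by
      intro i
      rw [kk, Fin.append_left]
    have h2 : ∀ i : Fin q, (if (Fin.natAdd p i : Fin (p + q)) ∈ S then kk p q d (Fin.natAdd p i)
        else 0) = if (Fin.natAdd p i : Fin (p + q)) ∈ S then d else 0 := by
      intro i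
      rw [kk, Fin.append_right]
    rw [Finset.sum_congr rfl fun i _ => h1 i, Finset.sum_congr rfl fun i _ => h2 i,
      ← Finset.sum_filter, ← Finset.sum_filter, Finset.sum_const, Finset.sum_const, smul_eq_mul,
      smul_eq_mul]
    ring

/-- the subsums -/
theorem subsums_eq (p q d : ℕ) :
    ((Finset.univ : Finset (Finset (Fin (p + q)))).image fun S => ∑ i ∈ S, kk p q d i) =
      (Finset.range (p + 1) ×ˢ Finset.range (q + 1)).image fun x => x.1 + d * x.2 := by
  ext s
  simp only [Finset.mem_image, Finset.mem_univ, true_and, Finset.mem_product, Finset.mem_range,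
    Prod.exists]
  constructor
  · rintro ⟨S, rfl⟩
    obtain ⟨a, b, ha, hb, h⟩ := sum_any p q d S
    exact ⟨a, b, ⟨by omega, by omega⟩, h.symm⟩
  · rintro ⟨a, b, ⟨ha, hb⟩, rfl⟩
    exact ⟨sel p q a b, sum_sel p q d a b (by omega) (by omega)⟩

/-- the number of subsums -/
theorem card_subsums (p q d : ℕ) (hd : p < d) :
    ((Finset.univ : Finset (Finset (Fin (p + q)))).image fun S => ∑ i ∈ S, kk p q d i).card =
      (p + 1) * (q + 1) := by
  rw [subsums_eq, Finset.card_image_of_injOn, Finset.card_product, Finset.card_range,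
    Finset.card_range]
  rintro ⟨a, b⟩ h ⟨a', b'⟩ h' hab
  simp only [Finset.coe_product, Finset.coe_range, Set.mem_prod, Set.mem_Iio] at h h' hab
  have h1 : a = a' := by
    have := congrArg (· % d) hab
    simp only [Nat.add_mul_mod_self_left] at this
    rwa [Nat.mod_eq_of_lt (by omega), Nat.mod_eq_of_lt (by omega)] at this
  subst h1
  have h2 : d * b = d * b' := by omega
  have h3 : b = b' := Nat.eq_of_mul_eq_mul_left (by omega) h2
  rw [h3]

end Pool.Agent.H33.NI
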