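import Mathlib

/-!
# Digit sets which are complete residue systems

If the integers `D i`, `i ∈ ι`, meet every residue class modulo `n`, then the set of the numbers
`∑ D (ω j) / n ^ (j + 1)` has interior points.
-/

set_option autoImplicit false

open Set Filter Topology MeasureTheory
open scoped Pointwise

noncomputable section

namespace Pool.Agent.H33.NI

section

variable {ι : Type} [Fintype ι] (n : ℕ) (D : ι → ℕ)

/-- the number with the digits `D (ω j)` -/
def phi (ω : ℕ → ι) : ℝ := ∑' j, (D (ω j) : ℝ) / (n : ℝ) ^ (j + 1)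

variable {n}

theorem summable_pow (hn : 2 ≤ n) (B : ℝ) : Summable fun j : ℕ => B / (n : ℝ) ^ (j + 1) := by
  have h2 : (1 : ℝ) < n := by exact_mod_cast hn
  have h : Summable fun j : ℕ => ((n : ℝ)⁻¹) ^ j :=
    summable_geometric_of_lt_one (by positivity) (inv_lt_one_of_one_lt₀ h2)
  refine (h.mul_left (B / n)).congr fun j => ?_
  rw [pow_succ, inv_pow]
  field_simp

theorem le_total (i : ι) : (D i : ℝ) ≤ ∑ i, (D i : ℝ) :=
  Finset.single_le_sum (f := fun i => (D i : ℝ)) (fun _ _ => Nat.cast_nonneg _)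
    (Finset.mem_univ i)

theorem summable_phi (hn : 2 ≤ n) (ω : ℕ → ι) :
    Summable fun j => (D (ω j) : ℝ) / (n : ℝ) ^ (j + 1) := by
  refine Summable.of_nonneg_of_le (fun j => by positivity) (fun j => ?_)
    (summable_pow hn (∑ i, (D i : ℝ)))
  exact div_le_div_of_nonneg_right (le_total D _) (by positivity)

theorem continuous_phi [TopologicalSpace ι] [DiscreteTopology ι] (hn : 2 ≤ n) :
    Continuous (phi n D) := by
  refine continuous_tsum (fun j => ?_) (summable_pow hn (∑ i, (D i : ℝ))) (fun j ω => ?_)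
  · exact (continuous_of_discreteTopology (f := fun i : ι => (D i : ℝ) / (n : ℝ) ^ (j + 1))).comp
      (continuous_apply j)
  · rw [Real.norm_of_nonneg (by positivity)]
    exact div_le_div_of_nonneg_right (le_total D _) (by positivity)

theorem phi_cons (hn : 2 ≤ n) (i : ι) (ω : ℕ → ι) :
    phi n D (fun j => Nat.casesOn j i ω) = (D i + phi n D ω) / n := by
  have hn0 : (n : ℝ) ≠ 0 := by
    have : 0 < n := by omega
    positivity
  rw [phi, (summable_phi D hn _).tsum_eq_zero_add]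
  have h1 : ∀ j : ℕ, (D (ω j) : ℝ) / (n : ℝ) ^ (j + 1 + 1) =
      ((D (ω j) : ℝ) / (n : ℝ) ^ (j + 1)) * (n : ℝ)⁻¹ := fun j => by
    rw [pow_succ (n : ℝ) (j + 1)]
    field_simp
  have h2 : ∑' j, (D (ω j) : ℝ) / (n : ℝ) ^ (j + 1 + 1) = phi n D ω * (n : ℝ)⁻¹ := by
    rw [phi, ← tsum_mul_right]
    exact tsum_congr h1
  simp only [zero_add, pow_one]
  rw [h2]
  change (D i : ℝ) / n + phi n D ω * (n : ℝ)⁻¹ = _
  field_simp

omit [Fintype ι] in
theorem vol_sub (c : ℝ) (A : Set ℝ) : volume ((fun x : ℝ => x - c) ⁻¹' A) = volume A := by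
  simp only [sub_eq_add_neg]
  exact measure_preimage_add_right volume (-c) A

/-- the integer translates cover the line -/
theorem cover [Nonempty ι] [TopologicalSpace ι] [DiscreteTopology ι] (hn : 2 ≤ n)
    (hD : ∀ z : ℤ, ∃ i, (n : ℤ) ∣ z - D i) (x : ℝ) :
    ∃ c : ℤ, x - (c : ℝ) ∈ range (phi n D) := by
  obtain ⟨T, hT⟩ : ∃ T, T = range (phi n D) := ⟨_, rfl⟩
  have hTc : IsCompact T := by
    rw [hT]
    exact isCompact_range (continuous_phi D hn)
  have hn0 : (0 : ℝ) < n := by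
    have : 0 < n := by omega
    positivity
  obtain ⟨S, hS⟩ : ∃ S : Set ℝ, S = {y : ℝ | ∃ c : ℤ, y - (c : ℝ) ∈ T} := ⟨_, rfl⟩
  have hScl : IsClosed S := by
    have h1 : S = T + range ((↑) : ℤ → ℝ) := by
      rw [hS]
      ext y
      constructor
      · rintro ⟨c, hc⟩
        exact ⟨y - c, hc, (c : ℝ), ⟨c, rfl⟩, by simp⟩
      · rintro ⟨t, ht, _, ⟨c, rfl⟩, rfl⟩
        exact ⟨c, by simpa using ht⟩
    rw [h1]
    exact (Int.isClosedEmbedding_coe_real.isClosed_range).add_left_of_isCompact hTc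
  have hdiv : ∀ y ∈ S, y / n ∈ S := by
    intro y hy
    rw [hS] at hy ⊢
    obtain ⟨c, hc⟩ := hy
    obtain ⟨i, c', hi⟩ := hD c
    rw [hT] at hc ⊢
    obtain ⟨ω, hω⟩ := hc
    refine ⟨c', fun j => Nat.casesOn j i ω, ?_⟩
    rw [phi_cons D hn, hω]
    have h1 : (c : ℝ) - D i = n * c' := by exact_mod_cast hi
    field_simp
    linarith
  have hpow : ∀ (K : ℕ), ∀ y ∈ S, y / (n : ℝ) ^ K ∈ S := by
    intro K
    induction K with
    | zero => intro y hy; simpa using hy
    | succ K ih =>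
      intro y hy
      have := hdiv _ (ih y hy)
      rwa [div_div, ← pow_succ] at this
  obtain ⟨i₀⟩ := (inferInstance : Nonempty ι)
  obtain ⟨t₀, ht₀⟩ : ∃ t₀, t₀ = phi n D fun _ => i₀ := ⟨_, rfl⟩
  have hz : ∀ z : ℤ, t₀ + z ∈ S := fun z => by
    rw [hS]
    exact ⟨z, by rw [add_sub_cancel_right, hT, ht₀]; exact ⟨_, rfl⟩⟩
  have hall : x ∈ S := by
    rw [← hScl.closure_eq, Metric.mem_closure_iff]
    intro ε hε
    obtain ⟨K, hK⟩ := exists_pow_lt_of_lt_one hε (y := (n : ℝ)⁻¹)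
      (inv_lt_one_of_one_lt₀ (by exact_mod_cast hn))
    refine ⟨(t₀ + ⌊(n : ℝ) ^ K * x - t₀⌋) / (n : ℝ) ^ K, hpow K _ (hz _), ?_⟩
    have hp : (0 : ℝ) < (n : ℝ) ^ K := by positivity
    have h1 := Int.floor_le ((n : ℝ) ^ K * x - t₀)
    have h2 := Int.lt_floor_add_one ((n : ℝ) ^ K * x - t₀)
    have h3 : x - (t₀ + ⌊(n : ℝ) ^ K * x - t₀⌋) / (n : ℝ) ^ K =
        ((n : ℝ) ^ K * x - t₀ - ⌊(n : ℝ) ^ K * x - t₀⌋) / (n : ℝ) ^ K := by
      field_simp
      ring
    rw [Real.dist_eq, h3, abs_of_nonneg (div_nonneg (by linarith) hp.le)]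
    rw [inv_pow] at hK
    refine lt_trans ?_ hK
    rw [div_eq_mul_inv]
    exact mul_lt_of_lt_one_left (by positivity) (by linarith)
  rw [hS] at hall
  rw [← hT]
  exact hall

/-- **interior points** -/
theorem interior_phi [Nonempty ι] [TopologicalSpace ι] [DiscreteTopology ι] (hn : 2 ≤ n)
    (hD : ∀ z : ℤ, ∃ i, (n : ℤ) ∣ z - D i) : (interior (range (phi n D))).Nonempty := by
  obtain ⟨T, hT⟩ : ∃ T, T = range (phi n D) := ⟨_, rfl⟩
  have hTc : IsCompact T := by
    rw [hT]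
    exact isCompact_range (continuous_phi D hn)
  obtain ⟨c, y, hy⟩ := nonempty_interior_of_iUnion_of_closed
    (f := fun c : ℤ => (Homeomorph.subRight (c : ℝ)) ⁻¹' T)
    (fun c => hTc.isClosed.preimage (Homeomorph.subRight (c : ℝ)).continuous) (by
      rw [eq_univ_iff_forall]
      intro x
      obtain ⟨c, hc⟩ := cover D hn hD x
      rw [← hT] at hc
      exact mem_iUnion.2 ⟨c, hc⟩)
  rw [← (Homeomorph.subRight (c : ℝ)).preimage_interior] at hy
  rw [← hT]
  exact ⟨_, hy⟩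

/-- the measure is at least one -/
theorem one_le_volume [Nonempty ι] [TopologicalSpace ι] [DiscreteTopology ι] (hn : 2 ≤ n)
    (hD : ∀ z : ℤ, ∃ i, (n : ℤ) ∣ z - D i) : 1 ≤ volume (range (phi n D)) := by
  obtain ⟨T, hT⟩ : ∃ T, T = range (phi n D) := ⟨_, rfl⟩
  have hTc : IsCompact T := by
    rw [hT]
    exact isCompact_range (continuous_phi D hn)
  rw [← hT]
  have h1 : Ico (0 : ℝ) 1 ⊆ ⋃ c : ℤ, (fun x : ℝ => x - c) ⁻¹' (T ∩ Ico (-(c : ℝ)) (-(c : ℝ) + 1)) := by
    intro x hx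
    obtain ⟨c, hc⟩ := cover D hn hD x
    rw [← hT] at hc
    refine mem_iUnion.2 ⟨c, hc, ?_, ?_⟩
    · have := hx.1
      linarith
    · have := hx.2
      linarith
  have h2 : ∀ c : ℤ, volume ((fun x : ℝ => x - c) ⁻¹' (T ∩ Ico (-(c : ℝ)) (-(c : ℝ) + 1))) =
      volume (T ∩ Ico (-(c : ℝ)) (-(c : ℝ) + 1)) := fun c =>
    vol_sub (c : ℝ) _
  calc (1 : ENNReal) = volume (Ico (0 : ℝ) 1) := by rw [Real.volume_Ico]; norm_num
    _ ≤ ∑' c : ℤ, volume ((fun x : ℝ => x - c) ⁻¹' (T ∩ Ico (-(c : ℝ)) (-(c : ℝ) + 1))) :=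
      (measure_mono h1).trans (measure_iUnion_le _)
    _ = ∑' c : ℤ, volume (T ∩ Ico (-(c : ℝ)) (-(c : ℝ) + 1)) := tsum_congr h2
    _ = volume (⋃ c : ℤ, T ∩ Ico (-(c : ℝ)) (-(c : ℝ) + 1)) := by
      rw [measure_iUnion]
      · intro c c' hcc
        rw [Function.onFun, Set.disjoint_left]
        rintro y ⟨-, h3, h4⟩ ⟨-, h5, h6⟩
        apply hcc
        have h7 : (c : ℝ) < c' + 1 := by linarith
        have h8 : (c' : ℝ) < c + 1 := by linarith
        have h9 : c < c' + 1 := by exact_mod_cast h7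
        have h10 : c' < c + 1 := by exact_mod_cast h8
        omega
      · exact fun c => hTc.measurableSet.inter measurableSet_Ico
    _ ≤ volume T := measure_mono (iUnion_subset fun c => inter_subset_left)

/-- **many disjoint translates** -/
theorem card_le_volume [Nonempty ι] [TopologicalSpace ι] [DiscreteTopology ι] (hn : 2 ≤ n)
    (hcard : Fintype.card ι = n) (hD : ∀ z : ℤ, ∃ i, (n : ℤ) ∣ z - D i) (S : Finset ι) :
    (S.card : ENNReal) ≤ volume (⋃ i ∈ S, (fun y : ℝ => y - D i) ⁻¹' range (phi n D)) := by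
  classical
  obtain ⟨T, hT⟩ : ∃ T, T = range (phi n D) := ⟨_, rfl⟩
  have hTc : IsCompact T := by
    rw [hT]
    exact isCompact_range (continuous_phi D hn)
  have hn0 : (0 : ℝ) < n := by
    have : 0 < n := by omega
    positivity
  have hV1 : 1 ≤ volume T := by rw [hT]; exact one_le_volume D hn hD
  have hVf : volume T ≠ ⊤ := hTc.measure_lt_top.ne
  rw [← hT]
  have h1 : (fun y : ℝ => (n : ℝ)⁻¹ * y) ⁻¹' T ⊆
      (⋃ i ∈ S, (fun y : ℝ => y - D i) ⁻¹' T) ∪
        ⋃ i ∈ (Finset.univ \ S), (fun y : ℝ => y - D i) ⁻¹' T := by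
    intro y hy
    have hy' : (n : ℝ)⁻¹ * y ∈ T := hy
    rw [hT] at hy'
    obtain ⟨ω, hω⟩ := hy'
    have h2 : phi n D ω = (D (ω 0) + phi n D fun j => ω (j + 1)) / n := by
      rw [← phi_cons D hn]
      congr 1
      funext j
      cases j <;> rfl
    have h3 : y - D (ω 0) ∈ T := by
      rw [hT]
      refine ⟨fun j => ω (j + 1), ?_⟩
      rw [h2] at hω
      field_simp at hω
      linarith
    by_cases h : ω 0 ∈ S
    · exact Or.inl (mem_biUnion h h3)
    · refine Or.inr (mem_biUnion (x := ω 0) ?_ h3)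
      simpa using h
  have h2 : volume ((fun y : ℝ => (n : ℝ)⁻¹ * y) ⁻¹' T) = n * volume T := by
    rw [Real.volume_preimage_mul_left (inv_ne_zero hn0.ne'), inv_inv, abs_of_pos hn0,
      ENNReal.ofReal_natCast]
  have h3 : volume (⋃ i ∈ (Finset.univ \ S), (fun y : ℝ => y - D i) ⁻¹' T) ≤
      ((n - S.card : ℕ) : ENNReal) * volume T := by
    refine (measure_biUnion_finset_le _ _).trans ?_
    have h4 : ∀ i ∈ Finset.univ \ S, volume ((fun y : ℝ => y - D i) ⁻¹' T) = volume T :=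
      fun i _ => vol_sub (D i : ℝ) _
    rw [Finset.sum_congr rfl h4, Finset.sum_const, Finset.card_sdiff_of_subset
      (Finset.subset_univ S), Finset.card_univ, hcard, nsmul_eq_mul]
  have hSn : S.card ≤ n := by
    rw [← hcard]
    exact Finset.card_le_univ S
  have h4 : (n : ENNReal) * volume T ≤ volume (⋃ i ∈ S, (fun y : ℝ => y - D i) ⁻¹' T) +
      ((n - S.card : ℕ) : ENNReal) * volume T := by
    rw [← h2]
    exact (measure_mono h1).trans ((measure_union_le _ _).trans (add_le_add le_rfl h3))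
  have h5 : (n : ENNReal) * volume T = (S.card : ENNReal) * volume T +
      ((n - S.card : ℕ) : ENNReal) * volume T := by
    rw [← add_mul, ← Nat.cast_add]
    congr 2
    omega
  rw [h5] at h4
  have h6 : (S.card : ENNReal) * volume T ≤
      volume (⋃ i ∈ S, (fun y : ℝ => y - D i) ⁻¹' T) :=
    (ENNReal.add_le_add_iff_right (ENNReal.mul_ne_top (ENNReal.natCast_ne_top _) hVf)).1 h4
  refine le_trans ?_ h6
  calc (S.card : ENNReal) = S.card * 1 := (mul_one _).symm
    _ ≤ _ := mul_le_mul_right hV1 _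

end

end Pool.Agent.H33.NI
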